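import Pool.Agent.U853.FL.Adic

set_option autoImplicit false

/-!
# Fibonacci and Lucas sums with central binomial coefficients modulo `p²`

All four congruences hold.  They come from two exact expansions: for `t = y²`, `y` one of the two
roots of `y² = y + 1`, the sequence `Z (n+2) = (2-t) Z (n+1) - Z n` has period `10`, and
`Z (p+1) - Z (p-1)`, `Z (m+1) + Z m` (`p = 2m+1`) are polynomials in `t` whose coefficients are
`2p² ∏ (1 - p²/j²) / (k² C(2k,k))` and `p C(2k,k) ∏ (1 - p²/(2j-1)²) / ((2k+1) 16^k)`, up to sign.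
-/

namespace Pool.Agent.Results.MP_0a65fc_nt.FibLucasSums

open Finset

/-- the Lucas numbers: `L 0 = 2`, `L 1 = 1`, `L (n+2) = L (n+1) + L n` -/
def L : ℕ → ℕ
  | 0 => 2
  | 1 => 1
  | n + 2 => L (n + 1) + L n

/-- the Legendre symbol `(p/5)` -/
def ε (p : ℕ) : ℤ := jacobiSym (p : ℤ) 5

/-- `q = F_{p-ε} / p` -/
def q (p : ℕ) : ℚ := (Nat.fib ((p : ℤ) - ε p).toNat : ℚ) / p

/-- `a ≡ b (mod p²)`: the difference is `p² c` for a rational `c` with denominator prime to `p` -/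
def Cong (p : ℕ) (a b : ℚ) : Prop := ∃ c : ℚ, ¬ p ∣ c.den ∧ a - b = (p : ℚ) ^ 2 * c

open Pool.Agent.U853.FL Pool.Agent.R439.PL in
theorem cong_of_I {p : ℕ} [hp : Fact p.Prime] {a b : ℚ} (h : I p 2 (a - b)) : Cong p a b := by
  obtain ⟨y, hy, e⟩ := h
  refine ⟨y, ?_, e⟩
  have := den_of_I (p := p) (k := 0) (x := y) (I_zero_iff.2 hy)
  simpa using this

theorem L_eq (n : ℕ) : L n = Pool.Agent.U853.FL.L n := by
  induction n using Nat.strong_induction_on with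
  | _ n ih =>
    match n, ih with
    | 0, _ => rfl
    | 1, _ => rfl
    | n + 2, ih => rw [L, Pool.Agent.U853.FL.L, ih (n + 1) (by omega), ih n (by omega)]

theorem res (p : ℕ) (hp : p.Prime) (h2 : p ≠ 2) (h5 : p ≠ 5) : Pool.Agent.U853.FL.Res p (ε p) := by
  have hodd : p % 2 = 1 := hp.eq_two_or_odd.resolve_left h2
  have h5' : p % 5 ≠ 0 := by
    intro h
    have := (Nat.prime_dvd_prime_iff_eq (by norm_num) hp).1 (Nat.dvd_of_mod_eq_zero h)
    exact h5 this.symm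
  have key : ε p = jacobiSym ((p : ℤ) % 5) 5 := jacobiSym.mod_left _ _
  have h4 : p % 5 = 1 ∨ p % 5 = 2 ∨ p % 5 = 3 ∨ p % 5 = 4 := by omega
  unfold Pool.Agent.U853.FL.Res
  rcases h4 with h | h | h | h
  · have e : (p : ℤ) % 5 = 1 := by omega
    rw [e] at key
    left
    refine ⟨?_, by omega⟩
    rw [key]; norm_num
  · have e : (p : ℤ) % 5 = 2 := by omega
    rw [e] at key
    right
    refine ⟨?_, by omega⟩
    rw [key]; norm_num
  · have e : (p : ℤ) % 5 = 3 := by omega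
    rw [e] at key
    right
    refine ⟨?_, by omega⟩
    rw [key]; norm_num
  · have e : (p : ℤ) % 5 = 4 := by omega
    rw [e] at key
    left
    refine ⟨?_, by omega⟩
    rw [key]; norm_num

open Pool.Agent.U853.FL Pool.Agent.R439.PL in
/-- Relations between the numbers with indices `m` and `m ± 1`. -/
theorem rels (m : ℕ) (hm : Even m) : (Pool.Agent.U853.FL.L m : ℤ) ^ 2 = 5 * (Nat.fib m : ℤ) ^ 2 + 4 ∧
    2 * (Nat.fib (m + 1) : ℤ) = Nat.fib m + Pool.Agent.U853.FL.L m ∧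
    2 * (Pool.Agent.U853.FL.L (m + 1) : ℤ) = 5 * Nat.fib m + Pool.Agent.U853.FL.L m := by
  have h5 : Real.sqrt 5 ^ 2 = 5 := Real.sq_sqrt (by norm_num)
  have h50 : Real.sqrt 5 ≠ 0 := by positivity
  have hF := F_real m
  have hF1 := F_real (m + 1)
  have hL := L_real m
  have hL1 := L_real (m + 1)
  have hpr : Real.goldenRatio ^ m * Real.goldenConj ^ m = 1 := by
    rw [← mul_pow, Real.goldenRatio_mul_goldenConj, hm.neg_one_pow]
  have hs := Real.goldenRatio_add_goldenConj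
  have hd := sqrt5
  refine ⟨?_, ?_, ?_⟩
  · have : (Pool.Agent.U853.FL.L m : ℝ) ^ 2 = 5 * (Nat.fib m : ℝ) ^ 2 + 4 := by
      rw [hL, ← h5, ← mul_pow, hF]
      linear_combination 4 * hpr
    exact_mod_cast this
  · have : 2 * (Nat.fib (m + 1) : ℝ) = Nat.fib m + Pool.Agent.U853.FL.L m := by
      apply mul_left_cancel₀ h50
      rw [pow_succ, pow_succ] at hF1
      linear_combination 2 * hF1 - hF - Real.sqrt 5 * hL +
        (Real.goldenRatio ^ m - Real.goldenConj ^ m) * hs +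
        (Real.goldenRatio ^ m + Real.goldenConj ^ m) * hd
    exact_mod_cast this
  · have : 2 * (Pool.Agent.U853.FL.L (m + 1) : ℝ) = 5 * Nat.fib m + Pool.Agent.U853.FL.L m := by
      rw [pow_succ, pow_succ] at hL1
      have e5 : 5 * (Nat.fib m : ℝ) = Real.sqrt 5 * (Real.goldenRatio ^ m - Real.goldenConj ^ m) := by
        rw [← hF, ← mul_assoc, ← pow_two, h5]
      rw [e5]
      linear_combination 2 * hL1 - hL + (Real.goldenRatio ^ m + Real.goldenConj ^ m) * hs +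
        (Real.goldenRatio ^ m - Real.goldenConj ^ m) * hd
    exact_mod_cast this

open Pool.Agent.U853.FL in
theorem dbl (n : ℕ) (hn : Odd n) : (Nat.fib (2 * n) : ℤ) = Nat.fib n * Pool.Agent.U853.FL.L n ∧
    (Pool.Agent.U853.FL.L (2 * n) : ℤ) = (Pool.Agent.U853.FL.L n : ℤ) ^ 2 + 2 := by
  have h50 : Real.sqrt 5 ≠ 0 := by positivity
  have hF := F_real n
  have hF2 := F_real (2 * n)
  have hL := L_real n
  have hL2 := L_real (2 * n)
  have hpr : Real.goldenRatio ^ n * Real.goldenConj ^ n = -1 := by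
    rw [← mul_pow, Real.goldenRatio_mul_goldenConj, hn.neg_one_pow]
  rw [mul_comm 2 n, pow_mul, pow_mul] at hF2 hL2
  rw [mul_comm 2 n]
  constructor
  · have : (Nat.fib (n * 2) : ℝ) = Nat.fib n * Pool.Agent.U853.FL.L n := by
      apply mul_left_cancel₀ h50
      rw [hF2, ← mul_assoc, hF, hL]; ring
    exact_mod_cast this
  · have : (Pool.Agent.U853.FL.L (n * 2) : ℝ) = (Pool.Agent.U853.FL.L n : ℝ) ^ 2 + 2 := by
      rw [hL2, hL]
      linear_combination (-2) * hpr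
    exact_mod_cast this

/-- For every prime `p ≠ 2, 5` the number `q = F_{p-ε}/p` is an integer and all four congruences
hold. -/
theorem result (p : ℕ) (hp : p.Prime) (h2 : p ≠ 2) (h5 : p ≠ 5) :
    (∃ z : ℤ, q p = z) ∧
    Cong p ((p : ℚ) * ∑ k ∈ Ico 1 p, (Nat.fib (2 * k) : ℚ) / ((k : ℚ) ^ 2 * ((2 * k).choose k : ℚ)))
      (-(ε p : ℚ) * (3 * q p / 2 + 5 * p * q p ^ 2 / 4)) ∧
    Cong p ((p : ℚ) * ∑ k ∈ Ico 1 p, (L (2 * k) : ℚ) / ((k : ℚ) ^ 2 * ((2 * k).choose k : ℚ)))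
      (-(5 * q p / 2) - 15 * p * q p ^ 2 / 4) ∧
    Cong p (∑ k ∈ range ((p - 3) / 2 + 1),
        ((2 * k).choose k : ℚ) * (Nat.fib (2 * k + 1) : ℚ) / ((2 * (k : ℚ) + 1) * 16 ^ k))
      ((-1) ^ ((p + 1) / 2) * (ε p : ℚ) * (q p / 2 + 5 * p * q p ^ 2 / 8)) ∧
    Cong p (∑ k ∈ range ((p - 3) / 2 + 1),
        ((2 * k).choose k : ℚ) * (L (2 * k + 1) : ℚ) / ((2 * (k : ℚ) + 1) * 16 ^ k))
      ((-1) ^ ((p + 1) / 2) * (5 * q p / 2 + 5 * p * q p ^ 2 / 8)) := by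
  have hfact : Fact p.Prime := ⟨hp⟩
  have hres := res p hp h2 h5
  have hodd : p % 2 = 1 := hp.eq_two_or_odd.resolve_left h2
  have hp3 : 3 ≤ p := by have := hp.two_le; omega
  obtain ⟨N, hN⟩ : ∃ N, p = 2 * N + 1 := ⟨p / 2, by omega⟩
  have hN0 : 1 ≤ N := by omega
  obtain ⟨n, hn⟩ : ∃ n, p = n + 1 := ⟨p - 1, by omega⟩
  have hp0 : (p : ℚ) ≠ 0 := Pool.Agent.R439.PL.p_ne
  set e := ε p with he
  have he1 : e = 1 ∨ e = -1 := by
    rcases hres with ⟨h, _⟩ | ⟨h, _⟩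
    · exact Or.inl h
    · exact Or.inr h
  -- the exact sums
  have s1 := Pool.Agent.U853.FL.sF1 n (by omega) e (by rw [← hn]; exact hres)
  have s2 := Pool.Agent.U853.FL.sL1 n (by omega) e (by rw [← hn]; exact hres)
  have s3 := Pool.Agent.U853.FL.sF2 N e (by rw [← hN]; exact hres)
  have s4 := Pool.Agent.U853.FL.sL2 N e (by rw [← hN]; exact hres)
  have t1 := Pool.Agent.U853.FL.part1 (p := p) h2 n hn (fun k => (Nat.fib (2 * k) : ℤ)) _ s1
  have t2 := Pool.Agent.U853.FL.part1 (p := p) h2 n hn (fun k => (Pool.Agent.U853.FL.L (2 * k) : ℤ)) _ s2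
  obtain ⟨t3, i3⟩ := Pool.Agent.U853.FL.part2 (p := p) h2 N hN (fun k => (Nat.fib (2 * k + 1) : ℤ)) _ s3
  obtain ⟨t4, i4⟩ := Pool.Agent.U853.FL.part2 (p := p) h2 N hN (fun k => (Pool.Agent.U853.FL.L (2 * k + 1) : ℤ)) _ s4
  rw [← hn] at t1 t2
  rw [← hN] at t3 i3 t4 i4
  -- `m = p - e`
  obtain ⟨m, hm, hmeven, hFp, hLp⟩ : ∃ m : ℕ, ((p : ℤ) - e).toNat = m ∧ Even m ∧
      2 * (Nat.fib p : ℤ) = e * Nat.fib m + Pool.Agent.U853.FL.L m ∧
      2 * (Pool.Agent.U853.FL.L p : ℤ) = 5 * Nat.fib m + e * Pool.Agent.U853.FL.L m := by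
    rcases he1 with h | h
    · refine ⟨2 * N, by omega, ⟨N, by ring⟩, ?_, ?_⟩
      · have := (rels (2 * N) ⟨N, by ring⟩).2.1
        rw [← hN] at this; rw [h]; linarith
      · have := (rels (2 * N) ⟨N, by ring⟩).2.2
        rw [← hN] at this; rw [h]; linarith
    · refine ⟨2 * N + 2, by omega, ⟨N + 1, by ring⟩, ?_, ?_⟩
      · have a := (rels (2 * N) ⟨N, by ring⟩).2.1
        have b := (rels (2 * N) ⟨N, by ring⟩).2.2
        have c : Nat.fib (2 * N + 2) = Nat.fib (2 * N) + Nat.fib (2 * N + 1) := Nat.fib_add_two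
        have d : Pool.Agent.U853.FL.L (2 * N + 2) =
          Pool.Agent.U853.FL.L (2 * N + 1) + Pool.Agent.U853.FL.L (2 * N) := rfl
        rw [h, c, d, hN]
        push_cast
        linarith
      · have a := (rels (2 * N) ⟨N, by ring⟩).2.1
        have b := (rels (2 * N) ⟨N, by ring⟩).2.2
        have c : Nat.fib (2 * N + 2) = Nat.fib (2 * N) + Nat.fib (2 * N + 1) := Nat.fib_add_two
        have d : Pool.Agent.U853.FL.L (2 * N + 2) =
          Pool.Agent.U853.FL.L (2 * N + 1) + Pool.Agent.U853.FL.L (2 * N) := rfl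
        rw [h, c, d, hN]
        push_cast
        linarith
  have hlf := (rels m hmeven).1
  obtain ⟨hF2, hL2⟩ := dbl p (Nat.odd_iff.2 hodd)
  have hq : q p = (Nat.fib m : ℚ) / p := by
    unfold q; rw [← he, hm]
  -- integrality
  have hsig : ∀ x : ℚ, Pool.Agent.R439.PL.I p 1 ((-1) ^ N * x) → Pool.Agent.R439.PL.I p 1 x := by
    intro x hx
    have h1 := hx.mulL (pow_mem (neg_mem (one_mem (Pool.Agent.R439.PL.Zp p))) N)
    rw [← mul_assoc, ← mul_pow] at h1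
    norm_num at h1
    exact h1
  have j3 : Pool.Agent.R439.PL.I p 1 ((e : ℚ) - Nat.fib p) := by
    apply hsig
    push_cast at i3
    exact i3
  have j4 : Pool.Agent.R439.PL.I p 1 ((1 : ℚ) - Pool.Agent.U853.FL.L p) := by
    apply hsig
    push_cast at i4
    exact i4
  have hFpq : 2 * (Nat.fib p : ℚ) = e * Nat.fib m + Pool.Agent.U853.FL.L m := by exact_mod_cast hFp
  have hLpq : 2 * (Pool.Agent.U853.FL.L p : ℚ) = 5 * Nat.fib m + e * Pool.Agent.U853.FL.L m := by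
    exact_mod_cast hLp
  have heq : (e : ℚ) = 1 ∨ (e : ℚ) = -1 := by
    rcases he1 with h | h
    · left; rw [h]; norm_num
    · right; rw [h]; norm_num
  have he2 : (e : ℚ) ^ 2 = 1 := by rcases heq with h | h <;> rw [h] <;> norm_num
  have hu2 := Pool.Agent.U853.FL.unit_two (p := p) h2
  have hf : Pool.Agent.R439.PL.I p 1 (Nat.fib m : ℚ) := by
    apply hu2.cancel
    have : 2 * (Nat.fib m : ℚ) = (e : ℚ) * ((e : ℚ) - Nat.fib p) - ((1 : ℚ) - Pool.Agent.U853.FL.L p) := by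
      linear_combination (-1 / 2) * hLpq + (e / 2 : ℚ) * hFpq + ((Nat.fib m : ℚ) / 2 - 1) * he2
    rw [this]
    exact (j3.mulL (Pool.Agent.R439.PL.int_mem e)).sub j4
  have hl : Pool.Agent.R439.PL.I p 1 ((Pool.Agent.U853.FL.L m : ℚ) - 2 * e) := by
    have : (Pool.Agent.U853.FL.L m : ℚ) - 2 * e = -(2 : ℤ) * ((e : ℚ) - Nat.fib p) - (e : ℤ) * (Nat.fib m : ℚ) := by
      push_cast
      linear_combination (-1) * hFpq
    rw [this]
    exact (j3.mulL (neg_mem (Pool.Agent.R439.PL.int_mem 2))).sub (hf.mulL (Pool.Agent.R439.PL.int_mem e))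
  obtain ⟨c1, c2, c3, c4⟩ := Pool.Agent.U853.FL.final (p := p) h2 (e : ℚ) (Nat.fib m : ℚ)
    (Pool.Agent.U853.FL.L m : ℚ) (Nat.fib p : ℚ) (Pool.Agent.U853.FL.L p : ℚ) (Nat.fib (2 * p) : ℚ)
    (Pool.Agent.U853.FL.L (2 * p) : ℚ) heq hf hl (by exact_mod_cast hlf) hFpq hLpq
    (by exact_mod_cast hF2) (by exact_mod_cast hL2)
  have hfq : (Nat.fib m : ℚ) = p * q p := by
    rw [hq]; field_simp
  have hQ : ∀ x : ℚ, Pool.Agent.R439.PL.I p 3 ((p : ℚ) * x) → Pool.Agent.R439.PL.I p 2 x :=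
    fun x hx => Pool.Agent.R439.PL.I_p_mul_iff.1 hx
  have hidx : (p - 3) / 2 + 1 = N := by omega
  have hsgn : (p + 1) / 2 = N + 1 := by omega
  rw [hidx, hsgn]
  simp only [L_eq]
  refine ⟨?_, cong_of_I ?_, cong_of_I ?_, cong_of_I ?_, cong_of_I ?_⟩
  · rw [hq]
    obtain ⟨y, hy, hy2⟩ := hf
    have hdvd : (p : ℤ) ∣ (Nat.fib m : ℤ) := by
      by_contra hnd
      have hu := Pool.Agent.R439.PL.U_int (p := p) hnd
      have : ((Nat.fib m : ℤ) : ℚ) = (p : ℚ) ^ 1 * y := by exact_mod_cast hy2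
      exact hu.not_I one_pos ⟨y, hy, this⟩
    obtain ⟨z, hz⟩ := hdvd
    refine ⟨z, ?_⟩
    have : (Nat.fib m : ℚ) = p * z := by exact_mod_cast hz
    rw [this]; field_simp
  · have e1 : (p : ℚ) * ∑ k ∈ Ico 1 p, (Nat.fib (2 * k) : ℚ) / ((k : ℚ) ^ 2 * ((2 * k).choose k : ℚ)) -
        -(e : ℚ) * (3 * q p / 2 + 5 * p * q p ^ 2 / 4) =
        ((p : ℚ) * ∑ k ∈ Ico 1 p, (((Nat.fib (2 * k) : ℤ)) : ℚ) / ((k : ℚ) ^ 2 * ((2 * k).choose k : ℚ)) -
          (((e - Nat.fib (2 * p) : ℤ)) : ℚ) / (2 * p)) +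
        (((e : ℚ) - Nat.fib (2 * p)) / (2 * p) + e * (3 * q p / 2 + 5 * p * q p ^ 2 / 4)) := by
      push_cast; ring
    rw [e1]
    refine t1.add (hQ _ (hu2.cancel ?_))
    have e2 : 2 * ((p : ℚ) * (((e : ℚ) - Nat.fib (2 * p)) / (2 * p) + e * (3 * q p / 2 + 5 * p * q p ^ 2 / 4))) =
        (e : ℚ) - Nat.fib (2 * p) + 2 * (e * (3 * (Nat.fib m : ℚ) / 2 + 5 * (Nat.fib m : ℚ) ^ 2 / 4)) := by
      rw [hfq]; field_simp
    rw [e2]; exact c1
  · have e1 : (p : ℚ) * ∑ k ∈ Ico 1 p, (Pool.Agent.U853.FL.L (2 * k) : ℚ) / ((k : ℚ) ^ 2 * ((2 * k).choose k : ℚ)) -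
        (-(5 * q p / 2) - 15 * p * q p ^ 2 / 4) =
        ((p : ℚ) * ∑ k ∈ Ico 1 p, (((Pool.Agent.U853.FL.L (2 * k) : ℤ)) : ℚ) / ((k : ℚ) ^ 2 * ((2 * k).choose k : ℚ)) -
          (((3 - Pool.Agent.U853.FL.L (2 * p) : ℤ)) : ℚ) / (2 * p)) +
        (((3 : ℚ) - Pool.Agent.U853.FL.L (2 * p)) / (2 * p) + (5 * q p / 2 + 15 * p * q p ^ 2 / 4)) := by
      push_cast; ring
    rw [e1]
    refine t2.add (hQ _ (hu2.cancel ?_))
    have e2 : 2 * ((p : ℚ) * (((3 : ℚ) - Pool.Agent.U853.FL.L (2 * p)) / (2 * p) + (5 * q p / 2 + 15 * p * q p ^ 2 / 4))) =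
        (3 : ℚ) - Pool.Agent.U853.FL.L (2 * p) + 2 * (5 * (Nat.fib m : ℚ) / 2 + 15 * (Nat.fib m : ℚ) ^ 2 / 4) := by
      rw [hfq]; field_simp
    rw [e2]; exact c2
  · have e1 : ∑ k ∈ range N, ((2 * k).choose k : ℚ) * (Nat.fib (2 * k + 1) : ℚ) / ((2 * (k : ℚ) + 1) * 16 ^ k) -
        (-1) ^ (N + 1) * (e : ℚ) * (q p / 2 + 5 * p * q p ^ 2 / 8) =
        (∑ k ∈ range N, ((2 * k).choose k : ℚ) * (((Nat.fib (2 * k + 1) : ℤ)) : ℚ) / ((2 * (k : ℚ) + 1) * 16 ^ k) -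
          ((((-1) ^ N * (e - Nat.fib p) : ℤ)) : ℚ) / p) +
        (-1) ^ N * (((e : ℚ) - Nat.fib p) / p + e * (q p / 2 + 5 * p * q p ^ 2 / 8)) := by
      push_cast; rw [pow_succ]; ring
    rw [e1]
    refine t3.add (Pool.Agent.R439.PL.I.mulL (pow_mem (neg_mem (one_mem _)) N) (hQ _ ?_))
    have e2 : (p : ℚ) * (((e : ℚ) - Nat.fib p) / p + e * (q p / 2 + 5 * p * q p ^ 2 / 8)) =
        (e : ℚ) - Nat.fib p + (e : ℚ) * ((Nat.fib m : ℚ) / 2 + 5 * (Nat.fib m : ℚ) ^ 2 / 8) := by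
      rw [hfq]; field_simp
    rw [e2]; exact c3
  · have e1 : ∑ k ∈ range N, ((2 * k).choose k : ℚ) * (Pool.Agent.U853.FL.L (2 * k + 1) : ℚ) / ((2 * (k : ℚ) + 1) * 16 ^ k) -
        (-1) ^ (N + 1) * (5 * q p / 2 + 5 * p * q p ^ 2 / 8) =
        (∑ k ∈ range N, ((2 * k).choose k : ℚ) * (((Pool.Agent.U853.FL.L (2 * k + 1) : ℤ)) : ℚ) / ((2 * (k : ℚ) + 1) * 16 ^ k) -
          ((((-1) ^ N * (1 - Pool.Agent.U853.FL.L p) : ℤ)) : ℚ) / p) +
        (-1) ^ N * (((1 : ℚ) - Pool.Agent.U853.FL.L p) / p + (5 * q p / 2 + 5 * p * q p ^ 2 / 8)) := by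
      push_cast; rw [pow_succ]; ring
    rw [e1]
    refine t4.add (Pool.Agent.R439.PL.I.mulL (pow_mem (neg_mem (one_mem _)) N) (hQ _ ?_))
    have e2 : (p : ℚ) * (((1 : ℚ) - Pool.Agent.U853.FL.L p) / p + (5 * q p / 2 + 5 * p * q p ^ 2 / 8)) =
        (1 : ℚ) - Pool.Agent.U853.FL.L p + (5 * (Nat.fib m : ℚ) / 2 + 5 * (Nat.fib m : ℚ) ^ 2 / 8) := by
      rw [hfq]; field_simp
    rw [e2]; exact c4

end Pool.Agent.Results.MP_0a65fc_nt.FibLucasSums
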